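import Mathlib
import Pool.Agent.TH941.UF.Star

set_option autoImplicit false

/-!
# In every finite partition of the positive integers one class represents every positive rational
-/

namespace Pool.Agent.Results.MP_54bae5_nt.OneClass

/-- `q` is representable by `A`: `q = ∑_{n ∈ F} 1 / n` for some finite nonempty `F ⊆ A` -/
def Representable (A : Set ℕ) (q : ℚ) : Prop :=
  ∃ F : Finset ℕ, F.Nonempty ∧ (F : Set ℕ) ⊆ A ∧ ∑ n ∈ F, (1 : ℚ) / (n : ℚ) = q

/-- the sets `C 0, ..., C (k - 1)` form a partition of the positive integers -/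
def IsPartition (k : ℕ) (C : Fin k → Set ℕ) : Prop :=
  (⋃ i, C i) = {n : ℕ | 0 < n} ∧ ∀ i j, i ≠ j → Disjoint (C i) (C j)

open Pool.Agent.TH941.UF

/-- `K n ∈ C` for all elements `n` of some set `S` of integers `≥ N` with reciprocal sum `1` -/
def Has (C : Set ℕ) (K N : ℕ) : Prop :=
  ∃ S : Finset ℕ, (∀ n ∈ S, N ≤ n) ∧ (∀ n ∈ S, K * n ∈ C) ∧ ∑ n ∈ S, (1 : ℚ) / (n : ℚ) = 1

lemma Has.mono {C : Set ℕ} {K N N' : ℕ} (h : Has C K N) (hN : N' ≤ N) : Has C K N' := by
  obtain ⟨S, h1, h2, h3⟩ := h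
  exact ⟨S, fun n hn => hN.trans (h1 n hn), h2, h3⟩

lemma has_some {k : ℕ} {C : Fin k → Set ℕ} (hC : ∀ n : ℕ, 0 < n → ∃ i, n ∈ C i) (K N : ℕ)
    (hK : 0 < K) : ∃ i, Has (C i) K N := by
  classical
  obtain ⟨X, hX1, hX2, hX3⟩ := star k (N + 1)
  by_contra hcon
  push Not at hcon
  have hlt : ∀ i, R (X.filter (fun n => K * n ∈ C i)) < 3 := by
    intro i
    by_contra h
    push Not at h
    obtain ⟨S, hS, hS1⟩ := hX3 _ (Finset.filter_subset _ _) h
    apply hcon i
    refine ⟨S, fun n hn => ?_, fun n hn => (Finset.mem_filter.1 (hS hn)).2, hS1⟩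
    have := hX1 n (Finset.mem_filter.1 (hS hn)).1
    omega
  have hle : R X ≤ ∑ i : Fin k, R (X.filter (fun n => K * n ∈ C i)) := by
    have e : ∑ i : Fin k, R (X.filter (fun n => K * n ∈ C i)) =
        ∑ n ∈ X, ∑ i : Fin k, if K * n ∈ C i then (1 : ℝ) / n else 0 := by
      rw [Finset.sum_comm]
      refine Finset.sum_congr rfl fun i _ => ?_
      unfold R
      rw [Finset.sum_filter]
    rw [e]
    unfold R
    refine Finset.sum_le_sum fun n hn => ?_
    have hn0 : 0 < K * n := Nat.mul_pos hK (by have := hX1 n hn; omega)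
    obtain ⟨i, hi⟩ := hC _ hn0
    have h2 : (if K * n ∈ C i then (1 : ℝ) / n else 0) ≤
        ∑ j : Fin k, if K * n ∈ C j then (1 : ℝ) / n else 0 := by
      refine Finset.single_le_sum (f := fun j => if K * n ∈ C j then (1 : ℝ) / n else 0) ?_
        (Finset.mem_univ i)
      intro j _
      positivity
    rw [if_pos hi] at h2
    exact h2
  have hk : 0 < k := by
    obtain ⟨i, _⟩ := hC 1 one_pos
    exact i.pos
  have hlt2 : ∑ i : Fin k, R (X.filter (fun n => K * n ∈ C i)) < ∑ _i : Fin k, (3 : ℝ) := by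
    apply Finset.sum_lt_sum_of_nonempty
    · exact ⟨⟨0, hk⟩, Finset.mem_univ _⟩
    · intro i _
      exact hlt i
  rw [Finset.sum_const, Finset.card_univ, Fintype.card_fin, nsmul_eq_mul] at hlt2
  linarith

lemma has_all {k : ℕ} {C : Fin k → Set ℕ} (hC : ∀ n : ℕ, 0 < n → ∃ i, n ∈ C i) (K : ℕ)
    (hK : 0 < K) : ∃ i, ∀ N, Has (C i) K N := by
  by_contra hcon
  push Not at hcon
  choose N hN using hcon
  obtain ⟨i, hi⟩ := has_some hC K (Finset.univ.sup N) hK
  exact hN i (hi.mono (Finset.le_sup (Finset.mem_univ i)))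

lemma has_mult {k : ℕ} {C : Fin k → Set ℕ} (hC : ∀ n : ℕ, 0 < n → ∃ i, n ∈ C i) :
    ∃ i, ∀ b : ℕ, 0 < b → ∃ K, 0 < K ∧ b ∣ K ∧ ∀ N, Has (C i) K N := by
  by_contra hcon
  push Not at hcon
  choose b hb0 hb using hcon
  have hK : 0 < ∏ i, b i := Finset.prod_pos fun i _ => hb0 i
  obtain ⟨i, hi⟩ := has_all hC (∏ i, b i) hK
  obtain ⟨N, hN⟩ := hb i (∏ i, b i) hK (Finset.dvd_prod_of_mem b (Finset.mem_univ i))
  exact hN (hi N)

lemma build {C : Set ℕ} {K : ℕ} (hK : 0 < K) (h : ∀ N, Has C K N) : ∀ t : ℕ, 0 < t → ∀ N : ℕ,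
    ∃ F : Finset ℕ, F.Nonempty ∧ (∀ n ∈ F, n ∈ C ∧ N < n) ∧
      ∑ n ∈ F, (1 : ℚ) / (n : ℚ) = t / K := by
  classical
  have hK' : (K : ℚ) ≠ 0 := by exact_mod_cast hK.ne'
  have one : ∀ N : ℕ, ∃ F : Finset ℕ, F.Nonempty ∧ (∀ n ∈ F, n ∈ C ∧ N < n) ∧
      ∑ n ∈ F, (1 : ℚ) / (n : ℚ) = 1 / K := by
    intro N
    obtain ⟨S, hS1, hS2, hS3⟩ := h (N + 1)
    have hne : S.Nonempty := by
      rw [Finset.nonempty_iff_ne_empty]
      rintro rfl
      simp at hS3
    refine ⟨S.image (fun n => K * n), hne.image _, ?_, ?_⟩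
    · intro n hn
      rw [Finset.mem_image] at hn
      obtain ⟨m, hm, rfl⟩ := hn
      refine ⟨hS2 m hm, ?_⟩
      have h1 := hS1 m hm
      have h2 : m ≤ K * m := Nat.le_mul_of_pos_left _ hK
      omega
    · rw [Finset.sum_image (fun x _ y _ hxy => Nat.eq_of_mul_eq_mul_left hK hxy)]
      have : ∀ n ∈ S, (1 : ℚ) / ((K * n : ℕ) : ℚ) = (1 / K) * ((1 : ℚ) / n) := by
        intro n _
        push_cast
        rw [one_div_mul_one_div]
      rw [Finset.sum_congr rfl this, ← Finset.mul_sum, hS3, mul_one]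
  intro t ht
  induction t, ht using Nat.le_induction with
  | base =>
    intro N
    obtain ⟨F, h1, h2, h3⟩ := one N
    exact ⟨F, h1, h2, by rw [h3]; simp⟩
  | succ t ht ih =>
    intro N
    obtain ⟨F, h1, h2, h3⟩ := ih N
    obtain ⟨G, h4, h5, h6⟩ := one (max N (F.sup id))
    have hdisj : Disjoint F G := by
      rw [Finset.disjoint_left]
      intro n hn hn'
      have h7 : n ≤ F.sup id := Finset.le_sup (f := id) hn
      have h8 := (h5 n hn').2
      have h9 := le_max_right N (F.sup id)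
      omega
    refine ⟨F ∪ G, h1.mono Finset.subset_union_left, ?_, ?_⟩
    · intro n hn
      rcases Finset.mem_union.1 hn with h7 | h7
      · exact h2 n h7
      · exact ⟨(h5 n h7).1, (le_max_left _ _).trans_lt (h5 n h7).2⟩
    · rw [Finset.sum_union hdisj, h3, h6]
      push_cast
      ring

/-- **One class suffices.**  For every partition of the positive integers into finitely many
classes there is a class `C i` such that every positive rational `q` is the sum of the reciprocals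
of finitely many distinct elements of `C i`; these can be taken larger than any given `N`. -/
theorem result : ∀ (k : ℕ) (C : Fin k → Set ℕ), IsPartition k C →
    ∃ i : Fin k, ∀ q : ℚ, 0 < q → ∀ N : ℕ, Representable (C i ∩ {n | N < n}) q := by
  intro k C hC
  have hC' : ∀ n : ℕ, 0 < n → ∃ i, n ∈ C i := by
    intro n hn
    have : n ∈ ⋃ i, C i := by rw [hC.1]; exact hn
    exact Set.mem_iUnion.1 this
  obtain ⟨i, hi⟩ := has_mult hC'
  refine ⟨i, fun q hq N => ?_⟩
  obtain ⟨K, hK, ⟨c, hc⟩, hK2⟩ := hi q.den q.den_pos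
  have hnum : 0 < q.num := Rat.num_pos.2 hq
  have hc0 : 0 < c := by
    rcases Nat.eq_zero_or_pos c with h | h
    · rw [h, mul_zero] at hc; omega
    · exact h
  obtain ⟨F, h1, h2, h3⟩ := build hK hK2 (q.num.toNat * c)
    (Nat.mul_pos (by omega) hc0) N
  refine ⟨F, h1, fun n hn => ?_, ?_⟩
  · have := h2 n (Finset.mem_coe.1 hn)
    exact ⟨this.1, this.2⟩
  · rw [h3, hc]
    have hnum' : ((q.num.toNat : ℕ) : ℚ) = (q.num : ℚ) := by
      have : ((q.num.toNat : ℕ) : ℤ) = q.num := Int.toNat_of_nonneg hnum.le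
      exact_mod_cast this
    have hd0 : (q.den : ℚ) ≠ 0 := by exact_mod_cast q.den_pos.ne'
    have hc0' : (c : ℚ) ≠ 0 := by exact_mod_cast hc0.ne'
    push_cast
    rw [hnum', mul_div_mul_right _ _ hc0']
    exact Rat.num_div_den q

end Pool.Agent.Results.MP_54bae5_nt.OneClass
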